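import Pool.Agent.Q97.Weak

set_option autoImplicit false

/-!
# Almost preserved extreme points at zero in `ℓ₁`-sums
-/

namespace Pool.Agent.Results.MP_c12391_an.ApepAtZero

section Definitions

variable {X : Type*} [NormedAddCommGroup X] [NormedSpace ℝ X]

/-- `S` is a slice of the bounded set `C`. -/
def IsSlice (C S : Set X) : Prop :=
  ∃ (f : X →L[ℝ] ℝ) (α : ℝ), 0 < α ∧ S = {x | x ∈ C ∧ sSup (f '' C) - α < f x}

/-- The point `x₀` of `C` is an almost preserved extreme point of `C`: every relatively weakly open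
subset of `C` that contains `x₀` contains a nonempty slice of `C`. -/
def IsAPEP (C : Set X) (x₀ : X) : Prop :=
  x₀ ∈ C ∧ ∀ U : Set (WeakSpace ℝ X), IsOpen U → toWeakSpace ℝ X x₀ ∈ U →
    ∃ S : Set X, IsSlice C S ∧ S.Nonempty ∧ S ⊆ {x | x ∈ C ∧ toWeakSpace ℝ X x ∈ U}

end Definitions

/-- The spaces of the example. -/
abbrev E (i : ℕ) : Type := EuclideanSpace ℝ (Fin (i + 1))

/-- The `ℓ₁`-sum of the spaces of the example. -/
noncomputable abbrev XX := lp E 1

open Metric

theorem norm_sub_single (x : XX) (n : ℕ) : ‖x - lp.single 1 n (x n)‖ = ‖x‖ - ‖x n‖ := by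
  have h := lp.norm_compl_sum_single (p := 1) (by simp) x {n}
  simpa using h

theorem apep_zero : IsAPEP (closedBall (0 : XX) 1) 0 := by
  classical
  refine ⟨by simp, ?_⟩
  intro U hU h0
  obtain ⟨I, δ, hδ, hI⟩ := Q97.exists_finset_of_isOpen_weak hU h0
  -- a unit vector in a block of large dimension on which all the functionals vanish
  set n : ℕ := I.card with hn
  obtain ⟨e, he1, heI⟩ : ∃ e : E n, ‖e‖ = 1 ∧ ∀ ψ ∈ I, ψ (lp.single 1 n e) = 0 := by
    let Φ : E n →ₗ[ℝ] (I → ℝ) := LinearMap.pi fun ψ =>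
      ((ψ.1 : XX →L[ℝ] ℝ).comp (lp.singleContinuousLinearMap ℝ E 1 n) : E n →L[ℝ] ℝ)
    have hker : Φ.ker ≠ ⊥ := by
      apply LinearMap.ker_ne_bot_of_finrank_lt
      rw [Module.finrank_fintype_fun_eq_card, Fintype.card_coe, finrank_euclideanSpace,
        Fintype.card_fin]
      exact Nat.lt_succ_self _
    obtain ⟨v, hv, hv0⟩ := Submodule.exists_mem_ne_zero_of_ne_bot hker
    have hvn : 0 < ‖v‖ := norm_pos_iff.mpr hv0
    refine ⟨‖v‖⁻¹ • v, ?_, ?_⟩
    · rw [norm_smul, norm_inv, norm_norm, inv_mul_cancel₀ hvn.ne']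
    · intro ψ hψ
      have h1 : Φ v ⟨ψ, hψ⟩ = 0 := by
        rw [LinearMap.mem_ker] at hv
        rw [hv]; rfl
      have h2 : ψ (lp.single 1 n v) = 0 := h1
      have h3 : lp.single 1 n (‖v‖⁻¹ • v) = ‖v‖⁻¹ • (lp.single 1 n v : XX) :=
        lp.single_smul 1 n ‖v‖⁻¹ v
      rw [h3, map_smul, h2, smul_zero]
  -- the exposing functional
  set f : XX →L[ℝ] ℝ := (innerSL ℝ e).comp (lp.evalCLM ℝ E 1 n) with hf
  have hfa : ∀ x : XX, f x = inner ℝ e (x n) := fun x => rfl
  have hfle : ∀ x : XX, f x ≤ ‖x n‖ := by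
    intro x
    rw [hfa]
    have := real_inner_le_norm e (x n)
    rwa [he1, one_mul] at this
  have hsup : sSup (f '' closedBall (0 : XX) 1) = 1 := by
    apply IsLUB.csSup_eq
    · constructor
      · rintro _ ⟨x, hx, rfl⟩
        rw [mem_closedBall, dist_zero_right] at hx
        exact (hfle x).trans ((lp.norm_apply_le_norm one_ne_zero x n).trans hx)
      · intro b hb
        apply hb
        refine ⟨lp.single 1 n e, ?_, ?_⟩
        · rw [mem_closedBall, dist_zero_right, lp.norm_single zero_lt_one, he1]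
        · rw [hfa, lp.single_apply_self, real_inner_self_eq_norm_sq, he1]
          norm_num
    · exact ⟨_, 0, by simp, rfl⟩
  -- the size of the slice
  obtain ⟨M, hM0, hM⟩ : ∃ M : ℝ, 0 < M ∧ ∀ ψ ∈ I, ‖ψ‖ ≤ M := by
    refine ⟨∑ ψ ∈ I, ‖ψ‖ + 1, by positivity, fun ψ hψ => ?_⟩
    have := Finset.single_le_sum (f := fun ψ : XX →L[ℝ] ℝ => ‖ψ‖) (fun _ _ => norm_nonneg _) hψ
    have h2 : ‖ψ‖ ≤ ∑ ψ ∈ I, ‖ψ‖ := this
    linarith
  set r : ℝ := min 1 (δ / (4 * M)) with hr
  have hr0 : 0 < r := lt_min one_pos (by positivity)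
  have hr1 : r ≤ 1 := min_le_left _ _
  have hr2 : 4 * M * r ≤ δ := by
    have h1 : r ≤ δ / (4 * M) := min_le_right _ _
    rw [le_div_iff₀ (by positivity)] at h1
    linarith
  refine ⟨_, ⟨f, r ^ 2 / 2, by positivity, rfl⟩, ?_, ?_⟩
  · refine ⟨lp.single 1 n e, ?_, ?_⟩
    · rw [mem_closedBall, dist_zero_right, lp.norm_single zero_lt_one, he1]
    · rw [hsup, hfa, lp.single_apply_self, real_inner_self_eq_norm_sq, he1]
      nlinarith
  · rintro x ⟨hx1, hx2⟩
    rw [hsup] at hx2
    refine ⟨hx1, ?_⟩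
    rw [mem_closedBall, dist_zero_right] at hx1
    apply hI
    intro ψ hψ
    rw [sub_zero]
    have hxn : ‖x n‖ ≤ 1 := (lp.norm_apply_le_norm one_ne_zero x n).trans hx1
    have h1 : ‖x n - e‖ ≤ r := by
      apply le_of_sq_le_sq _ hr0.le
      rw [norm_sub_sq_real, he1, real_inner_comm]
      rw [hfa] at hx2
      nlinarith [norm_nonneg (x n)]
    have h2 : ‖x - lp.single 1 n e‖ ≤ 2 * r := by
      have h3 : x - lp.single 1 n e = (x - lp.single 1 n (x n)) + lp.single 1 n (x n - e) := by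
        rw [lp.single_sub]; abel
      rw [h3]
      calc ‖(x - lp.single 1 n (x n)) + lp.single 1 n (x n - e)‖
          ≤ ‖x - lp.single 1 n (x n)‖ + ‖(lp.single 1 n (x n - e) : XX)‖ := norm_add_le _ _
        _ = (‖x‖ - ‖x n‖) + ‖x n - e‖ := by
            rw [norm_sub_single, lp.norm_single zero_lt_one]
        _ ≤ r ^ 2 / 2 + r := by
            have := hfle x
            linarith
        _ ≤ 2 * r := by nlinarith
    have h3 : ψ x = ψ (x - lp.single 1 n e) := by
      rw [map_sub, heI ψ hψ, sub_zero]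
    rw [h3]
    calc ‖ψ (x - lp.single 1 n e)‖ ≤ ‖ψ‖ * ‖x - lp.single 1 n e‖ := ψ.le_opNorm _
      _ ≤ M * (2 * r) := mul_le_mul (hM ψ hψ) h2 (norm_nonneg _) hM0.le
      _ < δ := by nlinarith

theorem not_apep (i : ℕ) : ¬ IsAPEP (closedBall (0 : E i) 1) 0 := by
  classical
  rintro ⟨-, h⟩
  set I : Finset (E i →L[ℝ] ℝ) :=
    Finset.univ.image fun j : Fin (i + 1) => (EuclideanSpace.proj j : E i →L[ℝ] ℝ) with hI
  have hopen := Q97.isOpen_weak_basic (𝕜 := ℝ) I (0 : E i) (1 / (2 * (i + 1)))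
  obtain ⟨S, ⟨f, α, hα, rfl⟩, ⟨x, hxS⟩, hsub⟩ := h _ hopen (by
    intro ψ _
    simp
    positivity)
  -- points of the neighbourhood have norm at most `1 / 2`
  have hsmall : ∀ y ∈ {x | x ∈ closedBall (0 : E i) 1 ∧
      sSup (f '' closedBall (0 : E i) 1) - α < f x}, ‖y‖ ≤ 1 / 2 := by
    intro y hy
    have h1 := (hsub hy).2
    have h2 : ∀ j : Fin (i + 1), |y j| ≤ 1 / (2 * (i + 1)) := by
      intro j
      have h3 := h1 (EuclideanSpace.proj j) (Finset.mem_image_of_mem _ (Finset.mem_univ j))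
      have h4 : ‖y j‖ < 1 / (2 * (i + 1)) := by simpa using h3
      exact h4.le
    rw [EuclideanSpace.norm_eq]
    apply Real.sqrt_le_iff.mpr
    refine ⟨by norm_num, ?_⟩
    calc ∑ j, ‖y j‖ ^ 2 ≤ ∑ _j : Fin (i + 1), (1 / (2 * ((i : ℝ) + 1))) ^ 2 := by
          apply Finset.sum_le_sum
          intro j _
          exact pow_le_pow_left₀ (norm_nonneg _) (h2 j) 2
      _ = ((i : ℝ) + 1) * (1 / (2 * (i + 1))) ^ 2 := by
          rw [Finset.sum_const, Finset.card_univ, Fintype.card_fin, nsmul_eq_mul]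
          push_cast
          ring
      _ ≤ (1 / 2) ^ 2 := by
          have hi : (0 : ℝ) ≤ i := Nat.cast_nonneg i
          have h5 : ((i : ℝ) + 1) * (1 / (2 * (i + 1))) ^ 2 = (1 / 4) * (1 / (i + 1)) := by
            field_simp
            ring
          rw [h5]
          have h6 : 1 / ((i : ℝ) + 1) ≤ 1 := by
            rw [div_le_one (by positivity)]; linarith
          linarith
  -- but every nonempty slice contains points of norm larger than `1 / 2`
  have hbdd : BddAbove (f '' closedBall (0 : E i) 1) := by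
    refine ⟨‖f‖, ?_⟩
    rintro _ ⟨y, hy, rfl⟩
    rw [mem_closedBall, dist_zero_right] at hy
    calc f y ≤ ‖f y‖ := Real.le_norm_self _
      _ ≤ ‖f‖ * ‖y‖ := f.le_opNorm y
      _ ≤ ‖f‖ := by nlinarith [norm_nonneg f]
  set s : ℝ := sSup (f '' closedBall (0 : E i) 1) with hs
  have hfs : ∀ y : E i, f y ≤ s * ‖y‖ := by
    intro y
    by_cases hy : y = 0
    · simp [hy]
    · have hyn : 0 < ‖y‖ := norm_pos_iff.mpr hy
      have h1 : f (‖y‖⁻¹ • y) ≤ s := by
        apply le_csSup hbdd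
        refine ⟨_, ?_, rfl⟩
        rw [mem_closedBall, dist_zero_right, norm_smul, norm_inv, norm_norm,
          inv_mul_cancel₀ hyn.ne']
      rw [map_smul, smul_eq_mul, inv_mul_le_iff₀ hyn] at h1
      linarith
  have hs0 : 0 ≤ s := by
    have : f 0 ≤ s := le_csSup hbdd ⟨0, by simp, rfl⟩
    simpa using this
  rcases hs0.eq_or_lt with hs0 | hs0
  · -- the functional vanishes
    set v : E i := EuclideanSpace.single 0 (1 : ℝ) with hv
    have hvn : ‖v‖ = 1 := by simp [hv]
    have h1 : 0 ≤ f v := by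
      have := hfs (-v)
      rw [map_neg, ← hs0, zero_mul] at this
      linarith
    have := hsmall v ⟨by simp [hvn], by rw [← hs0]; linarith⟩
    rw [hvn] at this
    norm_num at this
  · obtain ⟨_, ⟨y, hy, rfl⟩, hlt⟩ := exists_lt_of_lt_csSup
      (⟨_, 0, by simp, rfl⟩ : (f '' closedBall (0 : E i) 1).Nonempty)
      (show s - min α (s / 4) < s by have := lt_min hα (show 0 < s / 4 by positivity); linarith)
    have h1 : s - α < f y := by have := min_le_left α (s / 4); linarith
    have h2 : s - s / 4 < f y := by have := min_le_right α (s / 4); linarith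
    have h3 := hsmall y ⟨hy, h1⟩
    have h4 := hfs y
    nlinarith

/-- **Theorem.** There is a sequence `(E i)` of real Banach spaces such that `0` is an almost
preserved extreme point of the unit ball of their `ℓ₁`-sum, while, for every `i`, the point `0` is
not an almost preserved extreme point of the unit ball of `E i`. -/
theorem result : ∃ (E : ℕ → Type) (_ : ∀ i, NormedAddCommGroup (E i))
    (_ : ∀ i, NormedSpace ℝ (E i)) (_ : ∀ i, CompleteSpace (E i)),
    IsAPEP (Metric.closedBall (0 : lp E 1) 1) 0 ∧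
    ∀ i, ¬ IsAPEP (Metric.closedBall (0 : E i) 1) 0 :=
  ⟨E, inferInstance, inferInstance, inferInstance, apep_zero, not_apep⟩

end Pool.Agent.Results.MP_c12391_an.ApepAtZero
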